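import Mathlib

open Finset

namespace Pool.Agent.Results.MP_1e9bc5_co.UpperTwentyFiveNinths

/-! ### Definitions used in the statement -/

/-- The pair of edges `({x, y}, {u, v})` of `K_4 × K_n` lies in the product of bicliques
`E(K_{A,B}) × E(K_{C,D})`. -/
def InProduct {n : ℕ} (A B : Finset (Fin 4)) (C D : Finset (Fin n)) (x y : Fin 4) (u v : Fin n) :
    Prop :=
  ((x ∈ A ∧ y ∈ B) ∨ (y ∈ A ∧ x ∈ B)) ∧ ((u ∈ C ∧ v ∈ D) ∨ (v ∈ C ∧ u ∈ D))

/-- The `k` products `E(K_{A i, B i}) × E(K_{C i, D i})` of bicliques of `K_4` and of `K_n`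
partition `E(K_4) × E(K_n)`: the sets `A i, B i` are nonempty and disjoint, so are `C i, D i`, and
every pair `({x, y}, {u, v})` of edges lies in exactly one of the products. -/
def IsPartition (n k : ℕ) (A B : Fin k → Finset (Fin 4)) (C D : Fin k → Finset (Fin n)) : Prop :=
  (∀ i : Fin k, (A i).Nonempty ∧ (B i).Nonempty ∧ Disjoint (A i) (B i) ∧
    (C i).Nonempty ∧ (D i).Nonempty ∧ Disjoint (C i) (D i)) ∧
  ∀ x y : Fin 4, ∀ u v : Fin n, x ≠ y → u ≠ v →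
    ∃! i : Fin k, InProduct (A i) (B i) (C i) (D i) x y u v

/-- `h(n)`: the least number of products of bicliques partitioning `E(K_4) × E(K_n)`. -/
noncomputable def h (n : ℕ) : ℕ := sInf {k : ℕ | ∃ A B C D, IsPartition n k A B C D}

/-! ### Gluing partitions -/

/-- the same notion over arbitrary vertex and index types -/
def PPart {r V ι : Type} (A B : ι → Finset r) (C D : ι → Finset V) : Prop :=
  (∀ i, (A i).Nonempty ∧ (B i).Nonempty ∧ Disjoint (A i) (B i) ∧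
    (C i).Nonempty ∧ (D i).Nonempty ∧ Disjoint (C i) (D i)) ∧
  ∀ x y : r, ∀ u v : V, x ≠ y → u ≠ v →
    ∃! i, ((x ∈ A i ∧ y ∈ B i) ∨ (y ∈ A i ∧ x ∈ B i)) ∧
      ((u ∈ C i ∧ v ∈ D i) ∨ (v ∈ C i ∧ u ∈ D i))

/-- there is a partition of `E(K_r) × E(K_V)` into `k` products -/
def HasPart (r V : Type) (k : ℕ) : Prop :=
  ∃ (ι : Type) (_ : Fintype ι), Fintype.card ι = k ∧
    ∃ (A B : ι → Finset r) (C D : ι → Finset V), PPart A B C D

lemma HasPart.congr {r V W : Type} {k : ℕ} (e : V ≃ W) (h : HasPart r V k) : HasPart r W k := by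
  classical
  obtain ⟨ι, _, hk, A, B, C, D, h1, h2⟩ := h
  refine ⟨ι, inferInstance, hk, A, B, fun i => (C i).map e.toEmbedding,
    fun i => (D i).map e.toEmbedding, ?_, ?_⟩
  · intro i
    obtain ⟨a, b, c, d, f, g⟩ := h1 i
    exact ⟨a, b, c, d.map, f.map, (Finset.disjoint_map _).2 g⟩
  · intro x y u v hxy huv
    have := h2 x y (e.symm u) (e.symm v) hxy (fun h => huv (e.symm.injective h))
    simpa [Finset.mem_map_equiv] using this

/-- gluing: blow up the vertex `0` of `K_{s+1}` to `V` -/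
lemma HasPart.glue {r V : Type} [Finite V] [Nonempty V] {s k k' : ℕ}
    (h : HasPart r V k) (h' : HasPart r (Fin (s + 1)) k') : HasPart r (V ⊕ Fin s) (k + k') := by
  classical
  have := Fintype.ofFinite V
  obtain ⟨ι, _, hk, A, B, C, D, h1, h2⟩ := h
  obtain ⟨ι', _, hk', A', B', C', D', h1', h2'⟩ := h'
  let φ : V ⊕ Fin s → Fin (s + 1) := Sum.elim (fun _ => 0) Fin.succ
  have hφ : Function.Surjective φ := by
    intro w
    refine Fin.cases ?_ (fun j => ?_) w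
    · exact ⟨Sum.inl (Classical.arbitrary V), rfl⟩
    · exact ⟨Sum.inr j, rfl⟩
  have hφeq : ∀ u v, u ≠ v → φ u = φ v → ∃ a b, u = Sum.inl a ∧ v = Sum.inl b ∧ a ≠ b := by
    rintro (a | a) (b | b) huv heq
    · exact ⟨a, b, rfl, rfl, fun h => huv (by rw [h])⟩
    · exact absurd heq.symm (Fin.succ_ne_zero b)
    · exact absurd heq (Fin.succ_ne_zero a)
    · exact absurd (congrArg Sum.inr (Fin.succ_injective _ heq)) huv
  let A₂ : ι ⊕ ι' → Finset r := Sum.elim A A'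
  let B₂ : ι ⊕ ι' → Finset r := Sum.elim B B'
  let C₂ : ι ⊕ ι' → Finset (V ⊕ Fin s) :=
    Sum.elim (fun i => (C i).map Function.Embedding.inl) (fun j => univ.filter fun u => φ u ∈ C' j)
  let D₂ : ι ⊕ ι' → Finset (V ⊕ Fin s) :=
    Sum.elim (fun i => (D i).map Function.Embedding.inl) (fun j => univ.filter fun u => φ u ∈ D' j)
  refine ⟨ι ⊕ ι', inferInstance, by rw [Fintype.card_sum, hk, hk'], A₂, B₂, C₂, D₂, ?_, ?_⟩
  · rintro (i | j)
    · obtain ⟨a, b, c, d, f, g⟩ := h1 i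
      exact ⟨a, b, c, d.map, f.map, (Finset.disjoint_map _).2 g⟩
    · obtain ⟨a, b, c, ⟨w, hw⟩, ⟨w', hw'⟩, g⟩ := h1' j
      obtain ⟨u, rfl⟩ := hφ w
      obtain ⟨u', rfl⟩ := hφ w'
      refine ⟨a, b, c, ⟨u, by simp [C₂, hw]⟩, ⟨u', by simp [D₂, hw']⟩, ?_⟩
      rw [Finset.disjoint_left]
      intro z hz hz'
      simp only [C₂, D₂, Sum.elim_inr, mem_filter, mem_univ, true_and] at hz hz'
      exact Finset.disjoint_left.1 g hz hz'
  · intro x y u v hxy huv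
    by_cases heq : φ u = φ v
    · obtain ⟨a, b, rfl, rfl, hab⟩ := hφeq u v huv heq
      obtain ⟨i, hi, hi'⟩ := h2 x y a b hxy hab
      refine ⟨Sum.inl i, by simpa [A₂, B₂, C₂, D₂] using hi, ?_⟩
      rintro (j | j) hj
      · have := hi' j (by simpa [A₂, B₂, C₂, D₂] using hj)
        rw [this]
      · exfalso
        simp only [A₂, B₂, C₂, D₂, Sum.elim_inr, mem_filter, mem_univ, true_and] at hj
        rcases hj.2 with h | h
        · exact Finset.disjoint_left.1 (h1' j).2.2.2.2.2 h.1 (heq ▸ h.2)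
        · exact Finset.disjoint_left.1 (h1' j).2.2.2.2.2 h.1 (heq ▸ h.2)
    · obtain ⟨i, hi, hi'⟩ := h2' x y (φ u) (φ v) hxy heq
      refine ⟨Sum.inr i, by simpa [A₂, B₂, C₂, D₂] using hi, ?_⟩
      rintro (j | j) hj
      · exfalso
        simp only [A₂, B₂, C₂, D₂, Sum.elim_inl, Finset.mem_map, Function.Embedding.inl_apply] at hj
        rcases hj.2 with ⟨⟨a, -, rfl⟩, ⟨b, -, rfl⟩⟩ | ⟨⟨a, -, rfl⟩, ⟨b, -, rfl⟩⟩
        · exact heq rfl
        · exact heq rfl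
      · have := hi' j (by simpa [A₂, B₂, C₂, D₂] using hj)
        rw [this]

lemma HasPart.exists_fin {r : Type} {n k : ℕ} (h : HasPart r (Fin n) k) :
    ∃ (A B : Fin k → Finset r) (C D : Fin k → Finset (Fin n)), PPart A B C D := by
  classical
  obtain ⟨ι, _, hk, A, B, C, D, h1, h2⟩ := h
  let e : Fin k ≃ ι := (finCongr hk.symm).trans (Fintype.equivFin ι).symm
  refine ⟨A ∘ e, B ∘ e, C ∘ e, D ∘ e, fun i => h1 (e i), ?_⟩
  intro x y u v hxy huv
  obtain ⟨i, hi, hi'⟩ := h2 x y u v hxy huv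
  refine ⟨e.symm i, by simpa using hi, ?_⟩
  intro j hj
  rw [Equiv.eq_symm_apply]
  exact hi' (e j) hj

/-- the trivial partition for one vertex -/
lemma hasPart_one (r : Type) : HasPart r (Fin 1) 0 :=
  ⟨Fin 0, inferInstance, rfl, fun _ => ∅, fun _ => ∅, fun _ => ∅, fun _ => ∅,
    fun i => i.elim0, fun _ _ u v _ huv => absurd (Subsingleton.elim u v) huv⟩

lemma HasPart.glue_fin {r : Type} {n s k k' : ℕ} (hn : 0 < n)
    (h : HasPart r (Fin n) k) (h' : HasPart r (Fin (s + 1)) k') :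
    HasPart r (Fin (n + s)) (k + k') := by
  have : Nonempty (Fin n) := ⟨⟨0, hn⟩⟩
  exact (h.glue h').congr finSumFinEquiv

lemma existsUnique_of_card {ι : Type} [Fintype ι] (P : ι → Prop) [DecidablePred P]
    (h : (univ.filter P).card = 1) : ∃! i, P i := by
  obtain ⟨i, hi⟩ := Finset.card_eq_one.1 h
  refine ⟨i, ?_, fun j hj => ?_⟩
  · have : i ∈ univ.filter P := by rw [hi]; simp
    simpa using this
  · have : j ∈ univ.filter P := by simpa using hj
    rw [hi] at this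
    simpa using this

/-- three products for one edge -/
lemma hasPart_two : HasPart (Fin 4) (Fin 2) 3 := by
  refine ⟨Fin 3, inferInstance, rfl, ![{0}, {1}, {2}], ![{1, 2, 3}, {2, 3}, {3}],
    fun _ => {0}, fun _ => {1}, ?_, ?_⟩
  · decide +kernel
  · intro x y u v hxy huv
    apply existsUnique_of_card
    revert x y u v
    decide +kernel

/-! ### The partition of `E(K_4) × E(K_10)` into 25 products -/

/-- first sides in `K_4` -/
def bA : Fin 25 → Finset (Fin 4) :=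
  ![{0, 1}, {0, 1}, {0, 1}, {0, 1}, {0, 2}, {0, 2}, {0, 2}, {0, 2}, {0, 3}, {0, 3}, {0, 3},
      {0}, {2}, {0}, {2}, {0}, {1}, {0}, {1}, {0}, {1}, {0}, {1}, {0}, {1}]

/-- second sides in `K_4` -/
def bB : Fin 25 → Finset (Fin 4) :=
  ![{2, 3}, {2, 3}, {2, 3}, {2, 3}, {1, 3}, {1, 3}, {1, 3}, {1, 3}, {1, 2}, {1, 2}, {1, 2},
      {1}, {3}, {1}, {3}, {2}, {3}, {2}, {3}, {3}, {2}, {3}, {2}, {3}, {2}]

/-- first sides in `K_10` -/
def bC : Fin 25 → Finset (Fin 10) :=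
  ![{0, 1, 2, 5, 8, 9}, {2, 3, 4, 7, 8}, {1, 2, 3, 4, 7}, {2, 7}, {3, 6}, {0, 1, 3, 8},
      {0, 5}, {0, 8}, {0, 1, 3, 7, 8}, {3, 5, 8}, {1, 6, 8}, {5, 9}, {5, 9}, {0, 1, 2, 7, 8},
      {0, 1, 2, 7, 8}, {0, 1, 3, 6, 8}, {0, 1, 3, 6, 8}, {1, 9}, {1, 9}, {8}, {8}, {2, 6},
      {2, 6}, {0, 1}, {0, 1}]

/-- second sides in `K_10` -/
def bD : Fin 25 → Finset (Fin 10) :=
  ![{6}, {5}, {9}, {4}, {4}, {7}, {9}, {1}, {2}, {0}, {3}, {1, 2, 3, 4, 6, 7, 8},
      {1, 2, 3, 4, 6, 7, 8}, {4, 6}, {4, 6}, {4, 7}, {4, 7}, {0, 5, 8}, {0, 5, 8},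
      {0, 2, 3, 4, 9}, {0, 2, 3, 4, 9}, {3, 7}, {3, 7}, {2, 3, 4, 5}, {2, 3, 4, 5}]

lemma base_sides : ∀ i, (bA i).Nonempty ∧ (bB i).Nonempty ∧ Disjoint (bA i) (bB i) ∧
    (bC i).Nonempty ∧ (bD i).Nonempty ∧ Disjoint (bC i) (bD i) := by decide +kernel

lemma base_check : ∀ x y : Fin 4, ∀ u v : Fin 10, x ≠ y → u ≠ v →
    (univ.filter fun i : Fin 25 => ((x ∈ bA i ∧ y ∈ bB i) ∨ (y ∈ bA i ∧ x ∈ bB i)) ∧
      ((u ∈ bC i ∧ v ∈ bD i) ∨ (v ∈ bC i ∧ u ∈ bD i))).card = 1 := by decide +kernel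

lemma hasPart_ten : HasPart (Fin 4) (Fin 10) 25 :=
  ⟨Fin 25, inferInstance, rfl, bA, bB, bC, bD, base_sides, fun x y u v hxy huv =>
    existsUnique_of_card _ (base_check x y u v hxy huv)⟩

lemma hasPart_nine (q : ℕ) : HasPart (Fin 4) (Fin (1 + 9 * q)) (25 * q) := by
  induction q with
  | zero => exact hasPart_one _
  | succ q ih =>
    have h := HasPart.glue_fin (by omega) ih hasPart_ten
    have e1 : 1 + 9 * q + 9 = 1 + 9 * (q + 1) := by ring
    have e2 : 25 * q + 25 = 25 * (q + 1) := by ring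
    rw [e1, e2] at h
    exact h

lemma hasPart_all (q r : ℕ) : HasPart (Fin 4) (Fin (1 + 9 * q + r)) (25 * q + 3 * r) := by
  induction r with
  | zero => exact hasPart_nine q
  | succ r ih =>
    have h := HasPart.glue_fin (by omega) ih hasPart_two
    have e1 : 1 + 9 * q + r + 1 = 1 + 9 * q + (r + 1) := by ring
    have e2 : 25 * q + 3 * r + 3 = 25 * q + 3 * (r + 1) := by ring
    rw [e1, e2] at h
    exact h

/-- **Upper bound.** `h(n) ≤ (25/9) (n - 1) + 16/9` for every `n ≥ 1`. -/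
theorem result (n : ℕ) (hn : 1 ≤ n) : (h n : ℝ) ≤ (25 / 9 : ℝ) * ((n : ℝ) - 1) + 16 / 9 := by
  obtain ⟨A, B, C, D, hP⟩ := (hasPart_all ((n - 1) / 9) ((n - 1) % 9)).exists_fin
  have hn' : 1 + 9 * ((n - 1) / 9) + (n - 1) % 9 = n := by omega
  have key : h (1 + 9 * ((n - 1) / 9) + (n - 1) % 9) ≤
      25 * ((n - 1) / 9) + 3 * ((n - 1) % 9) := Nat.sInf_le ⟨A, B, C, D, hP⟩
  rw [hn'] at key
  have h1 : 9 * h n ≤ 25 * (n - 1) + 16 := by omega
  have h2 : 9 * (h n : ℝ) ≤ 25 * ((n : ℝ) - 1) + 16 := by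
    have : ((9 * h n : ℕ) : ℝ) ≤ ((25 * (n - 1) + 16 : ℕ) : ℝ) := by exact_mod_cast h1
    push_cast [Nat.cast_sub hn] at this
    exact this
  linarith

end Pool.Agent.Results.MP_1e9bc5_co.UpperTwentyFiveNinths
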